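import Pool.Agent.H19.A2.Bet2
import Pool.Agent.H19.A2.Exq2
import Pool.Agent.H19.ST.Mnc

/-!
# [H24 S2 ME2] tools for the step theorem of AP2 (MP_b39724)

* `ev2_fam`, `ev2_add`: families of values at `F_u` as `Ev2`. `mn2_sum`: a finite sum of functions with common data (`F`, `C`) is `Mn2`.
* `onto2_lem`: `φ'` is onto if `rH ∘ φ'` is onto and all labels different from `j₀` occur (`hgen`).
* `f2_cls`, `hs2_lam`, `hs2_nbh`.
-/

set_option autoImplicit false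
set_option linter.dupNamespace false

open scoped NumberField ComplexConjugate
open IsDedekindDomain
open scoped Classical

noncomputable section

namespace H24.S2

open H63.MA H38.BB H38.BG H57.PC H57.BRA H57.GP H77.PC3 H77.WD Pool.Agent.H19.NF
  Pool.Agent.H19.AB H86.AP H77.WE H24.RK Pool.Agent.H19.A2

section ev

variable {K : Type} [Field K] [NumberField K] {Ω : Type} [Field Ω] [Algebra K Ω]
  {p N : ℕ} {ζ : K}

theorem ev2_fam {D : RD0 K p ζ} (L : LDs D Ω) (Fr : FR L) {H' : Type} [Group H'] (F : H' → ℂ)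
    (T : Finset (Pl K)) {ι : Type} (J : Finset ι) (Θ : ι → Gal(Ω/K) →* H') (A : ι → ℂ)
    (hΘ : ∀ i ∈ J, A i ≠ 0 → Θ i ∈ HS2 L H' T) (u : Pl K) :
    ∑ i ∈ J, A i * F (Θ i (Fr.F u)) =
      Ev2 L Fr H' F T (fun Θ' => ∑ i ∈ J, if Θ' = Θ i then A i else 0) u := by
  unfold Ev2
  have e : ∀ Θ' ∈ HS2 L H' T, (∑ i ∈ J, if Θ' = Θ i then A i else 0) * F (Θ' (Fr.F u)) =
      ∑ i ∈ J, if Θ' = Θ i then A i * F (Θ i (Fr.F u)) else 0 := by
    intro Θ' _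
    rw [Finset.sum_mul]
    refine Finset.sum_congr rfl fun i _ => ?_
    split_ifs with h
    · rw [h]
    · rw [zero_mul]
  rw [Finset.sum_congr rfl e, Finset.sum_comm]
  refine (Finset.sum_congr rfl fun i hi => ?_).symm
  rw [Finset.sum_ite_eq' (HS2 L H' T) (Θ i) fun _ => A i * F (Θ i (Fr.F u))]
  by_cases h : A i = 0
  · rw [h, zero_mul]
    split_ifs <;> rfl
  · rw [if_pos (hΘ i hi h)]

theorem ev2_add {D : RD0 K p ζ} (L : LDs D Ω) (Fr : FR L) {H' : Type} [Group H'] (F : H' → ℂ)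
    (T : Finset (Pl K)) (f g : (Gal(Ω/K) →* H') → ℂ) (u : Pl K) :
    Ev2 L Fr H' F T (fun Θ => f Θ + g Θ) u = Ev2 L Fr H' F T f u + Ev2 L Fr H' F T g u := by
  unfold Ev2
  rw [← Finset.sum_add_distrib]
  exact Finset.sum_congr rfl fun Θ _ => by ring

theorem ev2_sum {D : RD0 K p ζ} (L : LDs D Ω) (Fr : FR L) {H' : Type} [Group H'] (F : H' → ℂ)
    (T : Finset (Pl K)) {ι : Type} (J : Finset ι) (f : ι → (Gal(Ω/K) →* H') → ℂ) (u : Pl K) :
    Ev2 L Fr H' F T (fun Θ => ∑ i ∈ J, f i Θ) u = ∑ i ∈ J, Ev2 L Fr H' F T (f i) u := by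
  unfold Ev2
  rw [Finset.sum_comm]
  exact Finset.sum_congr rfl fun Θ _ => by rw [Finset.sum_mul]

/-- the data of `Mn2` for a family of functions, with the same group, function and constant -/
def MnF {D : RD0 K p ζ} (L : LDs D Ω) (Fr : FR L) {P : Type} [Group P] (c : CL p N P)
    (j₀ : Fin N) {H : Type} [Group H] [Fintype H] (F : H → ℂ) (C : ℝ)
    (X : Finset (Pl K) → (Pl K → P) → ℂ) : Prop :=
  ∀ (T : Finset (Pl K)) (γ : Pl K → P), (∀ v ∈ T, v ∉ D.S0) →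
      ∃ co : (Gal(Ω/K) →* H) → ℂ, (∀ Θ, ‖co Θ‖ ≤ C ^ (T.card + 1)) ∧
        (∀ Θ, co Θ ≠ 0 → (∀ j, j ≠ j₀ → ∃ v ∈ T, γ v = c.g j) → mr Θ F = 0) ∧
        ∀ u, D.Gd u → u ∉ T →
          X (insert u T) (Function.update γ u (c.g j₀)) = Ev2 L Fr H F T co u

theorem mn2_sum {k : ℕ} {D : RD0 K p ζ} (L : LDs D Ω) (Fr : FR L) {P : Type} [Group P]
    (c : CL p N P) (j₀ : Fin N) {H : Type} [Group H] [Fintype H] (F : H → ℂ)
    (hH : ∀ h : H, h ^ p ^ k = 1) (hF : ∀ g h : H, F (g * h * g⁻¹) = F h) {C : ℝ} (hC : 1 ≤ C)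
    {ι : Type} [Fintype ι] (X : ι → Finset (Pl K) → (Pl K → P) → ℂ)
    (hX : ∀ i, MnF L Fr c j₀ F C (X i)) : Mn2 k L Fr c j₀ fun T γ => ∑ i, X i T γ := by
  refine ⟨H, inferInstance, inferInstance, F, (Fintype.card ι + 1) * C, hH, hF, ?_, fun T γ hT => ?_⟩
  · have h1 : (0 : ℝ) ≤ Fintype.card ι := Nat.cast_nonneg _
    nlinarith
  · choose co h1 h2 h3 using fun i => hX i T γ hT
    refine ⟨fun Θ => ∑ i, co i Θ, fun Θ => ?_, fun Θ hΘ hall => ?_, fun u hu huT => ?_⟩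
    · refine (norm_sum_le _ _).trans ((Finset.sum_le_sum fun i _ => h1 i Θ).trans ?_)
      rw [Finset.sum_const, Finset.card_univ, nsmul_eq_mul, mul_pow]
      have h4 : (0 : ℝ) ≤ Fintype.card ι := Nat.cast_nonneg _
      have h5 : (Fintype.card ι : ℝ) ≤ (Fintype.card ι + 1 : ℝ) ^ (T.card + 1) := by
        have h6 := one_le_pow₀ (n := T.card) (show (1 : ℝ) ≤ Fintype.card ι + 1 by linarith)
        rw [pow_succ]
        nlinarith
      exact mul_le_mul_of_nonneg_right h5 (by positivity)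
    · obtain ⟨i, -, hi⟩ := Finset.exists_ne_zero_of_sum_ne_zero hΘ
      exact h2 i Θ hi hall
    · rw [ev2_sum]
      exact Finset.sum_congr rfl fun i _ => h3 i u hu huT

end ev

section onto

theorem onto2_lem {p N : ℕ} (hp : p.Prime) {P H Qg Γ X : Type} [Group P] [Finite P] [Group H]
    [Group Qg] [Group Γ] (hP : IsPGroup p P) (c : CL p N P) (rP : P →* Qg)
    (hgen : ∀ S : Subgroup P, S.Normal → (∀ i, c.g i ∈ S) → rP.ker ≤ S) (f : P →* H)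
    (hf : Function.Surjective f) (rH : H →* Qg) (hr : rH.comp f = rP) {j₀ : Fin N}
    (hj : f (c.g j₀) = 1) {φ' : Γ →* H} (hs : Function.Surjective (rH.comp φ')) {T : Finset X}
    (γ : X → P) (tt : X → Γ)
    (hv : ∀ v ∈ T, ∃ σ : P, IsConj σ (γ v) ∧ f σ = φ' (tt v))
    (hall : ∀ j, j ≠ j₀ → ∃ v ∈ T, γ v = c.g j) : Function.Surjective φ' := by
  have hfin : Finite H := Finite.of_surjective f hf
  have hH : IsPGroup p H := hP.of_surjective f hf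
  rw [← MonoidHom.range_eq_top]
  by_contra hR
  obtain ⟨χ, hχ, hχR⟩ := pg_char hp hH φ'.range hR
  have h1 : rP.ker ≤ (χ.comp f).ker := by
    refine hgen _ inferInstance fun i => ?_
    rw [MonoidHom.mem_ker, MonoidHom.comp_apply]
    by_cases hi : i = j₀
    · rw [hi, hj, map_one]
    · obtain ⟨v, hvT, hvi⟩ := hall i hi
      obtain ⟨σ, h2, h3⟩ := hv v hvT
      rw [hvi] at h2
      obtain ⟨g, hg⟩ := isConj_iff.1 h2
      have h4 : χ (f σ) = 1 := by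
        rw [h3]
        exact hχR _ ⟨_, rfl⟩
      rw [← hg, map_mul, map_mul, map_inv, map_mul, map_mul, map_inv, h4, mul_one,
        mul_inv_cancel]
  apply hχ
  ext h
  obtain ⟨σ, hσ⟩ := hs (rH h)
  obtain ⟨y, hy⟩ := hf (h * (φ' σ)⁻¹)
  have h2 : y ∈ rP.ker := by
    rw [MonoidHom.mem_ker, ← hr, MonoidHom.comp_apply, hy, map_mul, map_inv]
    rw [MonoidHom.comp_apply] at hσ
    rw [hσ, mul_inv_cancel]
  have h3 : χ (f y) = 1 := MonoidHom.mem_ker.1 (h1 h2)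
  rw [hy, map_mul, map_inv, hχR _ ⟨σ, rfl⟩, inv_one, mul_one] at h3
  rw [h3]
  rfl

end onto

section hs

variable {K : Type} [Field K] [NumberField K] {Ω : Type} [Field Ω] [Algebra K Ω]
  [IsAlgClosure K Ω] {p m k N : ℕ} {ζ : K} {P G H : Type} [Group P] [Fintype P] [Group G]
  [Group H]

theorem mz_powk {p k : ℕ} (hk : 0 < k) (z : Multiplicative (ZMod p)) : z ^ p ^ k = 1 := by
  obtain ⟨j, rfl⟩ : ∃ j, k = j + 1 := ⟨k - 1, by omega⟩
  rw [pow_succ', pow_mul, H4.AP.mz_pow, one_pow]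

omit [NumberField K] [IsAlgClosure K Ω] [Field K] [Field Ω] [Algebra K Ω] in
theorem f2_cls [NeZero p] [NeZero (p ^ m)] (E : CE p G H) (q : P →* G)
    (hq : Function.Surjective q) {b : P → P → ZMod (p ^ m)} {w' : H → H → H → ZMod (p ^ m)}
    (hb : ∀ x y z, d2 b x y z = w' (E.pi (q x)) (E.pi (q y)) (E.pi (q z))) (hw : Nr3 w')
    (t : P) (g h : H × Multiplicative (ZMod p)) :
    H4.AP.F2 E q b t (g * h * g⁻¹) = H4.AP.F2 E q b t h := by
  unfold H4.AP.F2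
  have e1 : (g * h * g⁻¹).1 = g.1 * h.1 * g.1⁻¹ := rfl
  have e2 : (g * h * g⁻¹).2 = h.2 := by
    show g.2 * h.2 * g.2⁻¹ = h.2
    rw [mul_comm g.2, mul_inv_cancel_right]
  rw [e1, e2, H4.AP.v2_cls E q hq hb hw]

theorem hs2_lam [NeZero p] [Finite H] (hk : 0 < k) (hp : p.Prime) (hζ : IsPrimitiveRoot ζ p)
    (hH : ∀ x : H, x ^ p ^ k = 1) (D : RD K p ζ) (L : LDs D.toRD0 Ω)
    (Xi : (Fin D.r → ZMod p) → (Gal(Ω/K) →* Multiplicative (ZMod p)))
    (hXf : ∀ κ, H38.ML.FT (Xi κ)) (hXt : ∀ κ v, v ∉ D.S0 → Xi κ (L.t v) = 1)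
    {T : Finset (Pl K)} (hT : ∀ v ∈ T, v ∉ D.S0) {φ' : Gal(Ω/K) →* H} (hφ : Unz L T φ')
    (k' : T → ZMod p) (κ : Fin D.r → ZMod p) :
    φ'.prod (Lam D Xi T k' κ) ∈ HS2 L (H × Multiplicative (ZMod p)) T := by
  have hH' : ∀ x : H × Multiplicative (ZMod p), x ^ p ^ k = 1 := fun x =>
    Prod.ext (hH x.1) (mz_powk hk x.2)
  rw [mem_hs2 hp hζ L hH' T]
  refine ⟨ft_prod hφ.1 (lam_ft D Xi hp hζ hXf T k' κ), fun v hv hvT => ?_⟩
  refine Prod.ext (hφ.2 v hv hvT) ?_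
  apply Multiplicative.toAdd.injective
  have h := lam_t D Xi hp hζ L hXt hT k' κ hv
  rw [dif_neg hvT] at h
  exact h

omit [IsAlgClosure K Ω] in
theorem nbh_unz [Finite H] {D : RD0 K p ζ} (L : LDs D Ω) {T : Finset (Pl K)}
    {φ' : Gal(Ω/K) →* H} (hφ : Unz L T φ') {β : H → ZMod p}
    (hβ : ∀ x y, β (x * y) = β x + β y) :
    H38.ML.FT (H4.AP.nbh β φ') ∧ ∀ v, v ∉ D.S0 → v ∉ T → H4.AP.nbh β φ' (L.t v) = 1 := by
  constructor
  · obtain ⟨F, hF, h⟩ := hφ.1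
    refine ⟨F, hF, fun σ hσ => ?_⟩
    have h2 : φ' σ = 1 := MonoidHom.mem_ker.1 (h hσ)
    rw [MonoidHom.mem_ker]
    apply Multiplicative.toAdd.injective
    rw [H4.AP.nbh_apply hβ, h2, H4.AP.hom_one hβ, neg_zero, toAdd_one]
  · intro v hv hvT
    apply Multiplicative.toAdd.injective
    rw [H4.AP.nbh_apply hβ, hφ.2 v hv hvT, H4.AP.hom_one hβ, neg_zero, toAdd_one]

theorem hs2_nbh [Finite H] (hk : 0 < k) (hp : p.Prime) (hζ : IsPrimitiveRoot ζ p)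
    (hH : ∀ x : H, x ^ p ^ k = 1) {D : RD0 K p ζ} (L : LDs D Ω) {T : Finset (Pl K)}
    {φ' : Gal(Ω/K) →* H} (hφ : Unz L T φ') {β : H → ZMod p}
    (hβ : ∀ x y, β (x * y) = β x + β y) :
    φ'.prod (H4.AP.nbh β φ') ∈ HS2 L (H × Multiplicative (ZMod p)) T := by
  have hn : NeZero p := ⟨hp.ne_zero⟩
  have hH' : ∀ x : H × Multiplicative (ZMod p), x ^ p ^ k = 1 := fun x =>
    Prod.ext (hH x.1) (mz_powk hk x.2)
  obtain ⟨h1, h2⟩ := nbh_unz L hφ hβ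
  rw [mem_hs2 hp hζ L hH' T]
  exact ⟨ft_prod hφ.1 h1, fun v hv hvT => Prod.ext (hφ.2 v hv hvT) (h2 v hv hvT)⟩

end hs

end H24.S2
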