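import Pool.Agent.H24.S2.Me2

/-!
# [H24 S2 MF2] main case of the step theorem of AP2: the two sums and the key identity (MP_b39724)

* `bb_x2`: `B1` for the state `(b, w' ∘ π)` over `T ∪ {u}`; `bb_be2`: `B1` for the state of `β` on `H` over `T ∪ {u}`. `key_be2`: the coefficients of `-β ∘ φ'`.
-/

set_option autoImplicit false
set_option linter.dupNamespace false

open scoped NumberField ComplexConjugate
open IsDedekindDomain
open scoped Classical

noncomputable section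

namespace H24.S2

open H63.MA H38.BB H38.BG H57.PC H57.BRA H57.GP H77.PC3 H77.WD Pool.Agent.H19.NF
  Pool.Agent.H19.AB H86.AP H77.WE H24.RK Pool.Agent.H19.A2 Pool.Agent.H19

variable {K : Type} [Field K] [NumberField K] {Ω : Type} [Field Ω] [Algebra K Ω]
  [IsAlgClosure K Ω] {p m k N : ℕ} {ζ : K} {P G H Qg : Type} [Group P] [Fintype P] [Group G]
  [Fintype G] [Group H] [Fintype H] [Group Qg]

omit [Fintype H] in
theorem bb_x2 [NeZero p] [NeZero (p ^ m)] (E : CE p G H) (hk : 0 < k) (hp : p.Prime)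
    (hp2 : MOne p K) (hζ : IsPrimitiveRoot ζ p) (hz : Zn p (k + 1) K) (D : RD0 K p ζ)
    (L : LDs D Ω) (Q : DP K Ω) (Fr : FR L)
    (I : ((Gal(Ω/K) → Gal(Ω/K) → Gal(Ω/K) → ZMod (p ^ m)) ×
      (Pl K → Gal(Ω/K) → Gal(Ω/K) → ZMod (p ^ m))) →+ AddCircle (1 : ℝ))
    (hG : ∀ x : G, x ^ p ^ k = 1) {rG : G →* Qg} {rH : H →* Qg} (hr : rH.comp E.pi = rG)
    (wt : (Gal(Ω/K) →* Qg) → ℂ) (q : P →* G) {τ : Pl K → Gal(Ω/K) →* P}
    (h₁ : ∀ v, H38.ML.FT (τ v)) {t : P} (hj : q t = E.i 1) (hq : Function.Surjective q)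
    {b : P → P → ZMod (p ^ m)} {w' : H → H → H → ZMod (p ^ m)}
    (hb : ∀ x y z, d2 b x y z = w' (E.pi (q x)) (E.pi (q y)) (E.pi (q z))) (hw : Nr3 w')
    (T : Finset (Pl K)) (hT : ∀ v ∈ T, v ∉ D.S0) :
    ∃ (cR : (Gal(Ω/K) →* H) → (T → ZMod p) → Fin D.r → ZMod p)
      (ρR : (Gal(Ω/K) →* H) → (T → ZMod p) → (Gal(Ω/K) →* G)),
      (∀ φ' ∈ XS2 L Q (fun v => E.pi.comp (q.comp (τ v))) T, ST.Lc E L Fr T φ' → ∀ a,
        LR2 E L Q (fun v => q.comp (τ v)) φ' (ST.sv E L φ' T a) (cR φ' a) (ρR φ' a)) ∧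
      ∀ (γ : Pl K → P) (u : Pl K), D.Gd u → u ∉ T →
        B1 L Q Fr I rG wt τ q b (fun x y z => w' (E.pi x) (E.pi y) (E.pi z)) (insert u T)
            (Function.update γ u t) =
          ∑ φ' ∈ XS2 L Q (fun v => E.pi.comp (q.comp (τ v))) T, ∑ a : T → ZMod p,
            if ST.Lc E L Fr T φ' then
              wt (rH.comp φ') * ec (JR D Q I b w' τ φ') * H4.AP.V2 E q b t (φ' (Fr.F u)) *
                (if D.q u = cR φ' a then ∏ v ∈ T, gw2 E q b L γ φ' T a v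
                  (tw E (ρR φ' a) (kc p ζ Ω (D.pi u)) (Fr.F v)) else 0) else 0 := by
  have hw0 : ∀ x y z, (fun x y z => w' (E.pi x) (E.pi y) (E.pi z)) x y z =
      w' (E.pi x) (E.pi y) (E.pi z) + (0 : ZMod p →+ ZMod (p ^ m))
        ((fun _ _ => (0 : ZMod p)) (E.pi x) (E.pi y) * E.et z) := by
    intro x y z
    show _ = _ + 0
    rw [add_zero]
  obtain ⟨cR, ρR, hLR, hX⟩ := exq2 (w := fun x y z => w' (E.pi x) (E.pi y) (E.pi z)) (κ := w')
    (ν := fun _ _ => 0) (θ := 0) E hk hp hp2 hζ hz D L Q Fr I hG hr wt q h₁ hj hq hb hw0 hw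
    ⟨fun _ => rfl, fun _ => rfl⟩ T hT
  refine ⟨cR, ρR, hLR, fun γ u hu huT => ?_⟩
  rw [hX γ u hu huT]
  refine Finset.sum_congr rfl fun φ' hφ' => Finset.sum_congr rfl fun a _ => ?_
  by_cases hL : ST.Lc E L Fr T φ'
  · rw [if_pos hL]
    by_cases hc : D.q u = cR φ' a
    · rw [if_pos ⟨hL, hc⟩, if_pos hc, jr_inf E.pi b w' τ, lr2_pi E (hLR φ' hφ' hL a)]
      have e : ST.V2 E q b t (φ' (Fr.F u)) = H4.AP.V2 E q b t (φ' (Fr.F u)) := rfl
      rw [e]
      ring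
    · rw [if_neg (fun h => hc h.2), if_neg hc, mul_zero]
  · rw [if_neg hL, if_neg fun h => hL h.1]

omit [Fintype G] [Fintype H] in
/-- with the coefficients `Af` -/
theorem bb_af2 [NeZero p] [NeZero (p ^ m)] (E : CE p G H) (hp : p.Prime) (hp2 : MOne p K)
    (hζ : IsPrimitiveRoot ζ p) (D : RD K p ζ) (L : LDs D.toRD0 Ω) (Q : DP K Ω)
    (Fr : FR L) (Xi : (Fin D.r → ZMod p) → (Gal(Ω/K) →* Multiplicative (ZMod p)))
    (hXi : ∀ κ w, D.Gd w → Multiplicative.toAdd (Xi κ (Fr.F w)) = ∑ i, κ i * D.q w i)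
    (q : P →* G) (b : P → P → ZMod (p ^ m)) (t : P) (g : Pl K → G → ℂ)
    (T : Finset (Pl K)) (hT : ∀ v ∈ T, v ∉ D.S0) (φ' : Gal(Ω/K) →* H)
    (c : Fin D.r → ZMod p) (ρ : Gal(Ω/K) →* G) {u : Pl K} (hu : D.Gd u) :
    H4.AP.V2 E q b t (φ' (Fr.F u)) * (if D.q u = c then ∏ v ∈ T, g v
      (tw E ρ (kc p ζ Ω (D.pi u)) (Fr.F v)) else 0) =
      ∑ k : T → ZMod p, ∑ κ : Fin D.r → ZMod p,
        Af D (ch p) E Fr c ρ g T k κ *
          H4.AP.F2 E q b t (φ'.prod (Lam D Xi T k κ) (Fr.F u)) := by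
  have hψ : (ch p).IsPrimitive :=
    AddChar.zmod_char_primitive_of_eq_one_only_at_zero p _ fun _ h => H4.AP.ch_inj p h
  rw [mf D Xi hp hp2 hζ hψ E Q Fr hXi c ρ g T hT hu, Finset.mul_sum]
  refine Finset.sum_congr rfl fun k _ => ?_
  rw [Finset.mul_sum]
  refine Finset.sum_congr rfl fun κ _ => ?_
  show _ = _ * (H4.AP.V2 E q b t (φ' (Fr.F u)) *
    ch p (Multiplicative.toAdd (Lam D Xi T k κ (Fr.F u))))
  ring

/-- the state of `β` -/
theorem bb_be2 [NeZero p] [NeZero (p ^ m)] (E : CE p G H) (hp : p.Prime) (hm : 1 ≤ m)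
    (hζ : IsPrimitiveRoot ζ p) (D : RD0 K p ζ) (L : LDs D Ω) (Q : DP K Ω)
    (Fr : FR L)
    (I : ((Gal(Ω/K) → Gal(Ω/K) → Gal(Ω/K) → ZMod (p ^ m)) ×
      (Pl K → Gal(Ω/K) → Gal(Ω/K) → ZMod (p ^ m))) →+ AddCircle (1 : ℝ))
    (hH : ∀ x : H, x ^ p ^ k = 1) (rH : H →* Qg)
    (wt : (Gal(Ω/K) →* Qg) → ℂ) (t : P) (τ : Pl K → Gal(Ω/K) →* P)
    (q : P →* G) (hq : Function.Surjective q) (hj : q t = E.i 1)
    {b : P → P → ZMod (p ^ m)} {w' : H → H → H → ZMod (p ^ m)}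
    (hb : ∀ x y z, d2 b x y z = w' (E.pi (q x)) (E.pi (q y)) (E.pi (q z))) (hw : Nr3 w')
    {β : H → ZMod p} (hβ : ∀ x y, β (x * y) = β x + β y)
    (T : Finset (Pl K)) (γ : Pl K → P) {u : Pl K} (_hu : D.Gd u) (huT : u ∉ T)
    (huS : u ∉ D.S0) :
    B1 L Q Fr I rH wt τ (E.pi.comp q) (fun x y => b x y - be (ST.tz p m) E β (q x) (q y))
        (fun x y z => w' x y z + ST.tz p m (β x * E.ee y z)) (insert u T)
        (Function.update γ u t) =
      ∑ φ' ∈ XS2 L Q (fun v => E.pi.comp (q.comp (τ v))) T,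
        (wt (rH.comp φ') * (ec (JR D Q I (fun x y => b x y - be (ST.tz p m) E β (q x) (q y))
          (fun x y z => w' x y z + ST.tz p m (β x * E.ee y z)) τ φ') *
        ∏ v ∈ T, Vg (E.pi.comp q)
          (fun x y => b x y - be (ST.tz p m) E β (q x) (q y)) (γ v)
            (φ' (L.t v)) (φ' (Fr.F v)))) *
          H4.AP.F2 E q b t (φ'.prod (H4.AP.nbh β φ') (Fr.F u)) := by
  unfold B1
  rw [xs2_triv hp hζ L Q hH (fun v => (E.pi.comp q).comp (τ v)) T]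
  · refine Finset.sum_congr rfl fun φ' hφ' => ?_
    have hφ : Unz L T φ' := ((mem_xs2 hp hζ L Q hH _ T φ').1 hφ').1
    have e1 : φ' (L.t u) = 1 := hφ.2 u huS huT
    have e2 : Vg (E.pi.comp q) (fun x y => b x y - be (ST.tz p m) E β (q x) (q y)) t 1
        (φ' (Fr.F u)) = H4.AP.F2 E q b t (φ'.prod (H4.AP.nbh β φ') (Fr.F u)) := by
      have h := H4.AP.vb_proj0 q hq E (w := fun x y z => w' (E.pi x) (E.pi y) (E.pi z)) hb hw
        (fun _ _ _ => rfl) (ST.tz p m) β hβ hj (E.s (φ' (Fr.F u)))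
      rw [E.pi_s] at h
      have h3 : Vg (E.pi.comp q) (fun x y => b x y - be (ST.tz p m) E β (q x) (q y)) t 1
          (φ' (Fr.F u)) = H4.AP.V2 E q b t (φ' (Fr.F u)) *
            ch (p ^ m) (-ST.tz p m (β (φ' (Fr.F u)))) := h
      rw [h3, ← map_neg, H4.AP.ch_tz hp hm, ← H4.AP.nbh_apply hβ φ' (Fr.F u)]
      rfl
    rw [Finset.prod_insert huT, Function.update_self, e1, e2]
    have e3 : ∏ v ∈ T, Vg (E.pi.comp q)
          (fun x y => b x y - be (ST.tz p m) E β (q x) (q y))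
            (Function.update γ u t v) (φ' (L.t v)) (φ' (Fr.F v)) =
        ∏ v ∈ T, Vg (E.pi.comp q)
          (fun x y => b x y - be (ST.tz p m) E β (q x) (q y)) (γ v)
            (φ' (L.t v)) (φ' (Fr.F v)) := by
      refine Finset.prod_congr rfl fun v hv => ?_
      have hvu : v ≠ u := fun h => huT (h ▸ hv)
      rw [Function.update_of_ne hvu]
    rw [e3]
    ring
  · intro φ hφ hX
    have h2 : Vg (E.pi.comp q) (fun x y => b x y - be (ST.tz p m) E β (q x) (q y))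
        (Function.update γ u t u) (φ (L.t u)) (φ (Fr.F u)) ≠ 0 := by
      intro h
      exact hX (by rw [Finset.prod_insert huT, h, zero_mul, mul_zero, mul_zero])
    rw [Function.update_self] at h2
    refine H4.AP.vb_j0 (E.pi.comp q) (fun g => by rw [one_mul, mul_one]) ?_ h2
    rw [MonoidHom.comp_apply, hj, E.pi_i]

omit [Fintype H] in
theorem key_be2 [NeZero p] [NeZero (p ^ m)] (E : CE p G H) (hp : p.Prime) (hm : 1 ≤ m)
    (hp2 : MOne p K) (hζ : IsPrimitiveRoot ζ p) (D : RD K p ζ)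
    (hl1 : ∀ v, v ∉ D.S0 → D.lam v = 1)
    (L : LDs D.toRD0 Ω) (Q : DP K Ω) (Fr : FR L)
    (Xi : (Fin D.r → ZMod p) → (Gal(Ω/K) →* Multiplicative (ZMod p)))
    (hXt : ∀ κ v, v ∉ D.S0 → Xi κ (L.t v) = 1)
    (hXi : ∀ κ w, D.Gd w → Multiplicative.toAdd (Xi κ (Fr.F w)) = ∑ i, κ i * D.q w i)
    (I : ((Gal(Ω/K) → Gal(Ω/K) → Gal(Ω/K) → ZMod (p ^ m)) ×
      (Pl K → Gal(Ω/K) → Gal(Ω/K) → ZMod (p ^ m))) →+ AddCircle (1 : ℝ))
    (hI : FnR p k m D.toRD0 L Q Fr I) (hG : ∀ x : G, x ^ p ^ k = 1) (rH : H →* Qg)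
    (wt : (Gal(Ω/K) →* Qg) → ℂ) (τ : Pl K → Gal(Ω/K) →* P) (q : P →* G)
    (hq : Function.Surjective q)
    (b : P → P → ZMod (p ^ m)) (w' : H → H → H → ZMod (p ^ m)) (γ : Pl K → P)
    {T : Finset (Pl K)} (hT : ∀ v ∈ T, v ∉ D.S0) {φ' : Gal(Ω/K) →* H}
    (cf' : (T → ZMod p) → Fin D.r → ZMod p) (ρf : (T → ZMod p) → (Gal(Ω/K) →* G))
    (hR : ST.Lc E L Fr T φ' → ∀ a, LR2 E L Q (fun v => q.comp (τ v)) φ' (ST.sv E L φ' T a)
      (cf' a) (ρf a))
    {β : H → ZMod p} (hβ : ∀ x y, β (x * y) = β x + β y) {k' : T → ZMod p}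
    {κ : Fin D.r → ZMod p}
    (hL : ∀ σ, Multiplicative.toAdd (Lam D Xi T k' κ σ) = -β (φ' σ)) :
    (∑ a : T → ZMod p, if ST.Lc E L Fr T φ' then wt (rH.comp φ') *
        ec (JR D.toRD0 Q I b w' τ φ') *
        Af D (ch p) E Fr (cf' a) (ρf a) (gw2 E q b L γ φ' T a) T k' κ else 0) =
      ((p : ℂ) ^ D.r)⁻¹ *
        (wt (rH.comp φ') * (ec (JR D.toRD0 Q I
          (fun x y => b x y - be (ST.tz p m) E β (q x) (q y))
          (fun x y z => w' x y z + ST.tz p m (β x * E.ee y z)) τ φ') *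
        ∏ v ∈ T, Vg (E.pi.comp q)
          (fun x y => b x y - be (ST.tz p m) E β (q x) (q y)) (γ v)
            (φ' (L.t v)) (φ' (Fr.F v)))) := by
  by_cases hLc : ST.Lc E L Fr T φ'
  · -- the factors
    let hv : T → ZMod p → ℂ := fun v a0 => (p : ℂ)⁻¹ * ∑ a' : ZMod p,
      Vg q b (γ v.1) (E.i a0 * E.s (φ' (L.t v.1)))
        (E.i a' * E.s (φ' (Fr.F v.1))) *
        ch p (bb E β (E.i a0 * E.s (φ' (L.t v.1))) (E.i a' * E.s (φ' (Fr.F v.1))))
    have e1 : ∀ a : T → ZMod p,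
        Af D (ch p) E Fr (cf' a) (ρf a) (gw2 E q b L γ φ' T a) T k' κ =
        ((p : ℂ) ^ D.r)⁻¹ *
        ec (-JR D.toRD0 Q I (fun x y => be (ST.tz p m) E β (q x) (q y))
          (fun x y z => -ST.tz p m (β x * E.ee y z)) τ φ') *
        ∏ v : T, hv v (a v) := by
      intro a
      have hRa := hR hLc a
      rw [bet2 E hp hp2 hζ hl1 Xi hXt hXi hI hG q hRa hT
        (fun v _ hvT => dif_neg hvT) (ST.tz_ch hp hm) (gw2 E q b L γ φ' T a) hβ hL,
        ← Finset.prod_coe_sort T]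
      refine congrArg (HMul.hMul _) ?_
      refine Finset.prod_congr rfl fun v _ => ?_
      show _ = hv v (a v)
      have e2 : ST.sv E L φ' T a v.1 = E.i (a v) * E.s (φ' (L.t v.1)) := dif_pos v.2
      have e3 : E.pi (ρf a (Fr.F v.1)) = φ' (Fr.F v.1) := DFunLike.congr_fun hRa.pi (Fr.F v.1)
      rw [H4.AP.sum_base E (fun x => gw2 E q b L γ φ' T a v.1 x *
        ch p (bb E β (ST.sv E L φ' T a v.1) x)) (ρf a (Fr.F v.1)), e3]
      unfold gw2
      rw [e2]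
    have e4 : ∑ a : T → ZMod p, ∏ v : T, hv v (a v) = ∏ v ∈ T, Vg (E.pi.comp q)
          (fun x y => b x y - be (ST.tz p m) E β (q x) (q y)) (γ v)
            (φ' (L.t v)) (φ' (Fr.F v)) := by
      rw [← Finset.prod_coe_sort T]
      have e5 : ∀ v : T, Vg (E.pi.comp q)
          (fun x y => b x y - be (ST.tz p m) E β (q x) (q y)) (γ v.1)
            (φ' (L.t v.1)) (φ' (Fr.F v.1)) = ∑ a0 : ZMod p, hv v a0 := fun v => by
        have h := H4.AP.vb_proj' q hq E (ST.tz p m) β b (γ v.1) (φ' (L.t v.1)) (φ' (Fr.F v.1))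
        show Vg (E.pi.comp q) (fun x y => b x y - ST.tz p m (β (E.pi (q x)) * E.et (q y)))
          (γ v.1) (φ' (L.t v.1)) (φ' (Fr.F v.1)) = _
        rw [h]
        refine Finset.sum_congr rfl fun a' _ => ?_
        show _ = (p : ℂ)⁻¹ * _
        congr 1
        refine Finset.sum_congr rfl fun a _ => ?_
        congr 1
        have e3 : bb E β (E.i a' * E.s (φ' (L.t v.1))) (E.i a * E.s (φ' (Fr.F v.1))) =
            β (φ' (L.t v.1)) * a - β (φ' (Fr.F v.1)) * a' := by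
          unfold bb
          rw [E.pi_mul, E.pi_mul, E.pi_s, E.pi_s, E.et_i, E.et_i, E.et_s, E.et_s, add_zero,
            add_zero]
        rw [e3, H4.AP.ch_tz hp hm]
      rw [Finset.prod_congr rfl fun v _ => e5 v, Finset.prod_univ_sum, Fintype.piFinset_univ]
    have e6 : ec (JR D.toRD0 Q I (fun x y => b x y - be (ST.tz p m) E β (q x) (q y))
          (fun x y z => w' x y z + ST.tz p m (β x * E.ee y z)) τ φ') =
        ec (JR D.toRD0 Q I b w' τ φ') *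
        ec (-JR D.toRD0 Q I (fun x y => be (ST.tz p m) E β (q x) (q y))
          (fun x y z => -ST.tz p m (β x * E.ee y z)) τ φ') := by
      rw [← AddChar.map_add_eq_mul, ← sub_eq_add_neg, ← jr_sub]
      congr 2
      funext x y z
      rw [sub_neg_eq_add]
    simp only [if_pos hLc, e1]
    rw [← Finset.mul_sum, ← Finset.mul_sum, e4, e6]
    ring
  · simp only [if_neg hLc, Finset.sum_const_zero]
    have h0 : ∏ v ∈ T, Vg (E.pi.comp q)
          (fun x y => b x y - be (ST.tz p m) E β (q x) (q y)) (γ v)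
            (φ' (L.t v)) (φ' (Fr.F v)) = 0 := by
      unfold ST.Lc at hLc
      push Not at hLc
      obtain ⟨v, hv, hne⟩ := hLc
      refine Finset.prod_eq_zero hv ?_
      by_contra h
      obtain ⟨σ, x', -, h2, h3, h4⟩ := H4.AP.vb_supp (E.pi.comp q) h
      apply hne
      rw [← h2, ← h3, MonoidHom.comp_apply, MonoidHom.comp_apply]
      refine H4.AP.br_ee E ?_
      rw [← map_mul, h4, map_mul]
    rw [h0, mul_zero, mul_zero, mul_zero]

end H24.S2
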